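import Mathlib

namespace Pool.Agent.Results.MP_10bb55_an.NoRepelling
open MvPolynomial

/-- The map `[F 0 : F 1 : F 2]` read in the affine chart `[1 : u 0 : u 1]`. -/
noncomputable def chart (F : Fin 3 → MvPolynomial (Fin 3) ℂ) (u : Fin 2 → ℂ) : Fin 2 → ℂ :=
  ![eval ![1, u 0, u 1] (F 1) / eval ![1, u 0, u 1] (F 0),
    eval ![1, u 0, u 1] (F 2) / eval ![1, u 0, u 1] (F 0)]

/-- `m` is an eigenvalue of `L`. -/
def IsEig (L : (Fin 2 → ℂ) →L[ℂ] (Fin 2 → ℂ)) (m : ℂ) : Prop :=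
  ∃ w : Fin 2 → ℂ, w ≠ 0 ∧ L w = m • w

noncomputable def F0 : Fin 3 → MvPolynomial (Fin 3) ℂ :=
  ![C 3 * (X 0 * X 0) + C 2 * (X 1 * X 2), C 2 * (X 0 * X 1) + C 3 * (X 2 * X 2),
    C 2 * (X 0 * X 2) + C 3 * (X 1 * X 1)]

theorem hom2 (a : ℂ) (i j : Fin 3) :
    (C a * (X i * X j) : MvPolynomial (Fin 3) ℂ).IsHomogeneous 2 := by
  simpa using (isHomogeneous_C (Fin 3) a).mul ((isHomogeneous_X ℂ i).mul (isHomogeneous_X ℂ j))

theorem chart_eq : chart F0 = fun u => ![(2 * u 0 + 3 * (u 1 * u 1)) * (3 + 2 * (u 0 * u 1))⁻¹,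
    (2 * u 1 + 3 * (u 0 * u 0)) * (3 + 2 * (u 0 * u 1))⁻¹] := by
  funext u
  simp [chart, F0, div_eq_mul_inv]

noncomputable def P (i : Fin 2) : (Fin 2 → ℂ) →L[ℂ] ℂ := ContinuousLinearMap.proj i

theorem hP (i : Fin 2) (u : Fin 2 → ℂ) : HasFDerivAt (fun y : Fin 2 → ℂ => y i) (P i) u :=
  (P i).hasFDerivAt

theorem der (u : Fin 2 → ℂ) (D : ℂ) (hD : 3 + 2 * (u 0 * u 1) = D) (h0 : D ≠ 0)
    (h1 : 2 * u 0 + 3 * (u 1 * u 1) = D * u 0) (h2 : 2 * u 1 + 3 * (u 0 * u 0) = D * u 1) :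
    HasFDerivAt (chart F0) (ContinuousLinearMap.pi
      ![((2 - 2 * (u 0 * u 1)) / D) • P 0 + ((6 * u 1 - 2 * (u 0 * u 0)) / D) • P 1,
        ((6 * u 0 - 2 * (u 1 * u 1)) / D) • P 0 + ((2 - 2 * (u 0 * u 1)) / D) • P 1]) u := by
  rw [chart_eq]
  have hd : HasFDerivAt (fun u : Fin 2 → ℂ => 3 + 2 * (u 0 * u 1)) _ u :=
    (((hP 0 u).mul (hP 1 u)).const_mul 2).const_add 3
  have hi := (hasDerivAt_inv (x := 3 + 2 * (u 0 * u 1)) (hD ▸ h0)).comp_hasFDerivAt u hd
  refine hasFDerivAt_pi.2 fun i => ?_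
  fin_cases i
  · have := ((((hP 0 u).const_mul 2).add (((hP 1 u).mul (hP 1 u)).const_mul 3)).mul hi)
    refine this.congr_fderiv ?_
    ext v
    simp [hD, h1, P]
    field_simp
    ring
  · have := ((((hP 1 u).const_mul 2).add (((hP 0 u).mul (hP 0 u)).const_mul 3)).mul hi)
    refine this.congr_fderiv ?_
    ext v
    simp [hD, h2, P]
    field_simp
    ring

theorem eig (a b c m : ℂ)
    (h : IsEig (ContinuousLinearMap.pi ![a • P 0 + b • P 1, c • P 0 + a • P 1]) m) :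
    (m - a) ^ 2 = b * c := by
  obtain ⟨w, hw, h⟩ := h
  have e0 := congrFun h 0
  have e1 := congrFun h 1
  simp [P] at e0 e1
  by_contra hne
  apply hw
  have hne' : (m - a) ^ 2 - b * c ≠ 0 := sub_ne_zero.2 hne
  funext i
  fin_cases i
  · have : ((m - a) ^ 2 - b * c) * w 0 = 0 := by linear_combination (-(m - a)) * e0 - b * e1
    simpa [hne'] using this
  · have : ((m - a) ^ 2 - b * c) * w 1 = 0 := by linear_combination (-(m - a)) * e1 - c * e0
    simpa [hne'] using this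

theorem nrm (m : ℂ) (p q : ℚ) (hp : |p| ≠ 1) (hq : |q| ≠ 1) (h : (m - p) * (m - q) = 0) :
    ‖m‖ ≠ 1 := by
  intro h1
  rcases mul_eq_zero.1 h with h | h
  · rw [sub_eq_zero.1 h, Complex.norm_ratCast] at h1
    exact hp (by exact_mod_cast h1)
  · rw [sub_eq_zero.1 h, Complex.norm_ratCast] at h1
    exact hq (by exact_mod_cast h1)

theorem main (u : Fin 2 → ℂ)
    (h1 : 2 * u 0 + 3 * (u 1 * u 1) = (3 + 2 * (u 0 * u 1)) * u 0)
    (h2 : 2 * u 1 + 3 * (u 0 * u 0) = (3 + 2 * (u 0 * u 1)) * u 1) :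
    DifferentiableAt ℂ (chart F0) u ∧ (∃ m, IsEig (fderiv ℂ (chart F0) u) m ∧ ‖m‖ < 1) ∧
      ∀ m, IsEig (fderiv ℂ (chart F0) u) m → ‖m‖ ≠ 1 := by
  have hp : (u 0 * u 1) * ((u 0 * u 1 - 1) * (u 0 * u 1 - 1 / 4)) = 0 := by
    linear_combination (-(1 + 2 * (u 0 * u 1)) * u 1 / 4) * h1 - (3 * u 1 * u 1 / 4) * h2
  have hcases : (u 0 = 0 ∧ u 1 = 0) ∨ u 0 * u 1 = 1 ∨ u 0 * u 1 = 1 / 4 := by
    rcases mul_eq_zero.1 hp with h | h
    · left
      rcases mul_eq_zero.1 h with h' | h'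
      · refine ⟨h', ?_⟩
        rw [h'] at h2; linear_combination -h2
      · refine ⟨?_, h'⟩
        rw [h'] at h1; linear_combination -h1
    · right
      rcases mul_eq_zero.1 h with h' | h'
      · left; exact sub_eq_zero.1 h'
      · right; exact sub_eq_zero.1 h'
  have h0 : (3 + 2 * (u 0 * u 1)) ≠ 0 := by
    rcases hcases with ⟨a, b⟩ | h | h
    · simp [a]
    · rw [h]; norm_num
    · rw [h]; norm_num
  have hd := der u _ rfl h0 h1 h2
  rw [hd.fderiv]
  refine ⟨hd.differentiableAt, ?_, fun m hm => ?_⟩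
  · rcases hcases with ⟨a, b⟩ | h | h
    · refine ⟨2 / 3, ⟨![1, 0], by simp, ?_⟩, by norm_num⟩
      funext i; fin_cases i <;> simp [P, a, b]
    · refine ⟨4 / 5, ⟨![u 1, 1], by simp, ?_⟩, by norm_num⟩
      rw [h] at h1 h2 ⊢
      funext i; fin_cases i
      · simp [P]; linear_combination (-2 / 15) * h2
      · simp [P]; linear_combination (6 / 5) * h - (2 / 15) * u 1 * h1 - (2 / 5) * h
    · refine ⟨-2 / 7, ⟨![-2 * u 1, 1], by simp, ?_⟩, by norm_num⟩
      rw [h] at h1 h2 ⊢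
      funext i; fin_cases i
      · simp [P]; linear_combination (-4 / 21) * h2
      · simp [P]; linear_combination (8 / 21) * u 1 * h1 - (20 / 7) * h
  · have he := eig _ _ _ _ hm
    rcases hcases with ⟨a, b⟩ | h | h
    · refine nrm m (2 / 3) (2 / 3) (by norm_num) (by norm_num) ?_
      rw [a, b] at he; push_cast; linear_combination he
    · refine nrm m (4 / 5) (-4 / 5) (by norm_num) (by norm_num) ?_
      rw [h] at he h1 h2
      have a1 : u 1 * u 1 = u 0 := by linear_combination h1 / 3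
      have a2 : u 0 * u 0 = u 1 := by linear_combination h2 / 3
      rw [a1, a2] at he
      push_cast; linear_combination he + (16 / 25) * h
    · refine nrm m (8 / 7) (-2 / 7) (by norm_num) (by norm_num) ?_
      rw [h] at he h1 h2
      have a1 : u 1 * u 1 = u 0 / 2 := by linear_combination h1 / 3
      have a2 : u 0 * u 0 = u 1 / 2 := by linear_combination h2 / 3
      rw [a1, a2] at he
      push_cast; linear_combination he + (100 / 49) * h

theorem result : ∃ F : Fin 3 → MvPolynomial (Fin 3) ℂ, (∀ i, (F i).IsHomogeneous 2) ∧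
    (∀ z : Fin 3 → ℂ, (∀ i, eval z (F i) = 0) → z = 0) ∧
    ∀ z : Fin 3 → ℂ, z ≠ 0 → (∃ c : ℂ, ∀ i, eval z (F i) = c * z i) →
      z 0 ≠ 0 ∧ DifferentiableAt ℂ (chart F) ![z 1 / z 0, z 2 / z 0] ∧
      (∃ m, IsEig (fderiv ℂ (chart F) ![z 1 / z 0, z 2 / z 0]) m ∧ ‖m‖ < 1) ∧
      ∀ m, IsEig (fderiv ℂ (chart F) ![z 1 / z 0, z 2 / z 0]) m → ‖m‖ ≠ 1 := by
  refine ⟨F0, fun i => ?_, fun z h => ?_, fun z hz ⟨c, h⟩ => ?_⟩
  · fin_cases i <;> exact (hom2 _ _ _).add (hom2 _ _ _)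
  · have e0 := h 0
    have e1 := h 1
    have e2 := h 2
    simp [F0] at e0 e1 e2
    have hxy' : z 1 * z 2 = 0 := mul_self_eq_zero.1 (by
      linear_combination (9 * z 1 * z 1 / 35) * e1 - (6 * z 0 * z 1 / 35) * e2 +
        (4 * z 1 * z 2 / 35) * e0)
    have t0 : z 0 = 0 := mul_self_eq_zero.1 (by linear_combination e0 / 3 - (2 / 3) * hxy')
    rw [t0] at e1 e2
    have t1 : z 1 = 0 := mul_self_eq_zero.1 (by linear_combination e2 / 3)
    have t2 : z 2 = 0 := mul_self_eq_zero.1 (by linear_combination e1 / 3)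
    funext i; fin_cases i <;> simp [t0, t1, t2]
  · have e0 := h 0
    have e1 := h 1
    have e2 := h 2
    simp [F0] at e0 e1 e2
    have t0 : z 0 ≠ 0 := by
      intro t0
      rw [t0] at e0 e1 e2
      have hxy : z 1 * z 2 = 0 := by linear_combination e0 / 2
      apply hz
      rcases mul_eq_zero.1 hxy with t | t
      · rw [t] at e1
        have t2 : z 2 = 0 := mul_self_eq_zero.1 (by linear_combination e1 / 3)
        funext i; fin_cases i <;> simp [t0, t, t2]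
      · rw [t] at e2
        have t1 : z 1 = 0 := mul_self_eq_zero.1 (by linear_combination e2 / 3)
        funext i; fin_cases i <;> simp [t0, t, t1]
    refine ⟨t0, main _ ?_ ?_⟩
    · simp only [Matrix.cons_val_zero, Matrix.cons_val_one]
      field_simp
      linear_combination z 0 * e1 - z 1 * e0
    · simp only [Matrix.cons_val_zero, Matrix.cons_val_one]
      field_simp
      linear_combination z 0 * e2 - z 2 * e0

end Pool.Agent.Results.MP_10bb55_an.NoRepelling
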